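import Mathlib

namespace Pool.Agent.H.MP_fedadc_co

open Finset

def par (v : ℕ) : ℕ := if v = 16 ∨ v = 28 ∨ v = 30 then 0 else v - 1

lemma par_lt (v : ℕ) (h : 0 < v) : par v < v := by unfold par; split_ifs <;> omega

section peel
variable {R : Type} [CommRing R]

def ext {n : ℕ} (κ : Fin n → Fin 31) (i : ℕ) : ℕ := if h : i < n then (κ ⟨i, h⟩).val else 0

def W (n : ℕ) (w : ℕ → ℕ → R) : R :=
  ∑ κ : Fin n → Fin 31, ∏ v : Fin n,
    (if (0 < v.val ∧ ext κ (par v) = (κ v).val) ∨ 3 ≤ (κ v).val then 0 else w v (κ v))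

def hh (w : ℕ → ℕ → R) (n b : ℕ) : R :=
  (if b = 0 then 0 else w n 0) + (if b = 1 then 0 else w n 1) + (if b = 2 then 0 else w n 2)

def upd (w : ℕ → ℕ → R) (n : ℕ) : ℕ → ℕ → R :=
  fun v b => if v = par n then w v b * hh w n b else w v b

lemma ext_snoc {n : ℕ} (κ : Fin n → Fin 31) (c : Fin 31) (i : ℕ) (hi : i < n) :
    ext (Fin.snoc (α := fun _ => Fin 31) κ c) i = ext κ i := by
  unfold ext
  rw [dif_pos hi, dif_pos (by omega : i < n + 1)]
  have : (⟨i, (by omega : i < n + 1)⟩ : Fin (n+1)) = Fin.castSucc ⟨i, hi⟩ := rfl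
  rw [this, Fin.snoc_castSucc]

lemma sum_col (f : ℕ → R) (b : ℕ) :
    ∑ c : Fin 31, (if b = c.val ∨ 3 ≤ c.val then 0 else f c) =
      (if b = 0 then 0 else f 0) + (if b = 1 then 0 else f 1) + (if b = 2 then 0 else f 2) := by
  rw [Fin.sum_univ_eq_sum_range (fun c => if b = c ∨ 3 ≤ c then 0 else f c) 31]
  rw [← sum_subset (s₁ := range 3) (by intro x; simp; omega)
    (fun x _ hx => by rw [if_pos]; right; simpa using hx)]
  simp [sum_range_succ]

lemma W_succ (n : ℕ) (hn : 0 < n) (w : ℕ → ℕ → R) : W (n + 1) w = W n (upd w n) := by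
  unfold W
  rw [← (Fin.snocEquiv (fun _ : Fin (n+1) => Fin 31)).sum_comp, Fintype.sum_prod_type, sum_comm]
  refine sum_congr rfl (fun κ _ => ?_)
  have hp := par_lt n hn
  simp only [Fin.prod_univ_castSucc, Fin.snocEquiv_apply, Fin.snoc_castSucc, Fin.snoc_last,
    Fin.val_castSucc, Fin.val_last]
  have e1 : ∀ (c : Fin 31) (v : Fin n),
      ((0 < v.val ∧ ext (Fin.snocEquiv (fun _ : Fin (n+1) => Fin 31) (c, κ)) (par v) = (κ v).val) ↔
      (0 < v.val ∧ ext κ (par v) = (κ v).val)) := by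
    intro c v
    refine and_congr_right (fun h => ?_)
    rw [← ext_snoc κ c _ (lt_trans (par_lt v h) v.2)]; rfl
  have e2 : ∀ (c : Fin 31), ext (Fin.snocEquiv (fun _ : Fin (n+1) => Fin 31) (c, κ)) (par n) =
      (κ ⟨par n, hp⟩).val := by
    intro c
    refine (ext_snoc κ c _ hp).trans ?_; simp [ext, hp]
  simp only [e1, e2, hn, true_and]
  rw [← mul_sum, sum_col (w n)]
  have e3 : ∀ v : Fin n,
      (if (0 < v.val ∧ ext κ (par v) = (κ v).val) ∨ 3 ≤ (κ v).val then 0 else upd w n v (κ v)) =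
      (if (0 < v.val ∧ ext κ (par v) = (κ v).val) ∨ 3 ≤ (κ v).val then 0 else w v (κ v)) *
        (if v = ⟨par n, hp⟩ then hh w n (κ v) else 1) := by
    intro v
    unfold upd
    by_cases c : v = ⟨par n, hp⟩
    · subst c; simp
    · have : v.val ≠ par n := fun e => c (Fin.ext e)
      simp [c, this]
  simp only [e3, prod_mul_distrib, prod_ite_eq', mem_univ, if_true]
  rfl

lemma W_one (w : ℕ → ℕ → R) : W 1 w = w 0 0 + w 0 1 + w 0 2 := by
  unfold W
  rw [← (Equiv.funUnique (Fin 1) (Fin 31)).symm.sum_comp]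
  simp only [Fin.prod_univ_one, Fin.val_zero, lt_irrefl, false_and, false_or]
  have := sum_col (w 0) 100
  simp only [show ∀ c : Fin 31, ¬ (100 = c.val) from fun c => by omega, false_or] at this
  simpa using this

def F : ℕ → (ℕ → ℕ → R) → R
  | 0, w => w 0 0 + w 0 1 + w 0 2
  | n + 1, w => F n (upd w (n + 1))

lemma W_eq (n : ℕ) : ∀ w : ℕ → ℕ → R, W (n + 1) w = F n w := by
  induction n with
  | zero => intro w; exact W_one w
  | succ n ih => intro w; rw [W_succ _ (by omega), ih]; rfl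

end peel

abbrev D := TrivSqZeroExt ℚ ℚ

instance : DecidableEq D := inferInstanceAs (DecidableEq (ℚ × ℚ))

def mk (a b : ℚ) : D := (a, b)

def yy (c : ℕ) : D :=
  if c = 0 then mk 1 1 else if c = 1 then mk (-1) 1 else if c = 2 then mk 0 (-2) else 0

lemma F_val : (F 30 (fun _ c => yy c)).snd = 14 := by decide +kernel

open MvPolynomial in
lemma esymm_y (k : ℕ) (h1 : 1 ≤ k) (hk : k ≤ 31) :
    aeval (fun c : Fin 31 => yy c) (esymm (Fin 31) ℚ k) =
      if k = 2 then (-1 : D) else if k = 3 then mk 0 2 else 0 := by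
  rw [aeval_esymm_eq_multiset_esymm]
  have hs : (univ.val.map (fun c : Fin 31 => yy c)) =
      yy 0 ::ₘ yy 1 ::ₘ yy 2 ::ₘ Multiset.replicate 28 0 := by decide +kernel
  have hc : Multiset.card (yy 0 ::ₘ yy 1 ::ₘ yy 2 ::ₘ Multiset.replicate 28 (0 : D)) = 31 := by simp
  have := Multiset.prod_X_add_C_coeff (yy 0 ::ₘ yy 1 ::ₘ yy 2 ::ₘ Multiset.replicate 28 (0 : D))
    (k := 31 - k) (by rw [hc]; omega)
  rw [hc, show 31 - (31 - k) = k by omega] at this
  rw [hs, ← this]
  simp only [Multiset.map_cons, Multiset.prod_cons, Multiset.map_replicate, Multiset.prod_replicate,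
    map_zero, add_zero]
  have a1 : yy 0 + yy 1 + yy 2 = 0 := by decide +kernel
  have a2 : yy 0 * yy 1 + yy 0 * yy 2 + yy 1 * yy 2 = -1 := by decide +kernel
  have a3 : yy 0 * yy 1 * yy 2 = mk 0 2 := by decide +kernel
  have : (Polynomial.X + Polynomial.C (yy 0)) * ((Polynomial.X + Polynomial.C (yy 1)) *
      ((Polynomial.X + Polynomial.C (yy 2)) * Polynomial.X ^ 28)) =
      Polynomial.X ^ 31 + Polynomial.C (yy 0 + yy 1 + yy 2) * Polynomial.X ^ 30 +
      Polynomial.C (yy 0 * yy 1 + yy 0 * yy 2 + yy 1 * yy 2) * Polynomial.X ^ 29 +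
      Polynomial.C (yy 0 * yy 1 * yy 2) * Polynomial.X ^ 28 := by
    simp only [map_add, map_mul]; ring
  rw [this, a1, a2, a3]
  simp only [Polynomial.coeff_add, Polynomial.coeff_C_mul_X_pow, Polynomial.coeff_X_pow]
  split_ifs <;> first | omega | simp

def ev (i : Fin 31) : D := if i.val = 1 then -1 else if i.val = 2 then mk 0 2 else 0

noncomputable def m0 : Fin 31 →₀ ℕ := Finsupp.single 1 14 + Finsupp.single 2 1

lemma eps_pow (b : ℕ) : ((mk 0 2) ^ b).snd = if b = 1 then 2 else 0 := by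
  rcases b with _ | _ | b
  · simp
  · rw [zero_add, pow_one, if_pos rfl]; rfl
  · have : mk 0 2 * mk 0 2 = 0 := by decide +kernel
    rw [pow_succ, pow_succ, mul_assoc, this]; simp

lemma mono_val (m : Fin 31 →₀ ℕ) (hm : ∑ i : Fin 31, (i.val + 1) * m i = 31) :
    (∏ i, ev i ^ m i).snd = if m = m0 then 2 else 0 := by
  by_cases h : ∀ i : Fin 31, i ≠ 1 → i ≠ 2 → m i = 0
  · have e1 : ∏ i, ev i ^ m i = (-1) ^ m 1 * mk 0 2 ^ m 2 := by
      rw [Finset.prod_eq_mul (1 : Fin 31) 2 (by decide)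
        (fun c _ hc => by rw [h c hc.1 hc.2, pow_zero]) (by simp) (by simp)]
      rfl
    have e2 : 2 * m 1 + 3 * m 2 = 31 := by
      rw [Finset.sum_eq_add (1 : Fin 31) 2 (by decide)
        (fun c _ hc => by rw [h c hc.1 hc.2, mul_zero]) (by simp) (by simp)] at hm
      exact hm
    rw [e1]
    by_cases c : m 2 = 1
    · have c' : m 1 = 14 := by omega
      have : m = m0 := by
        ext i
        by_cases i1 : i = 1
        · subst i1; simp [m0, c']
        by_cases i2 : i = 2
        · subst i2; simp [m0, c]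
        · simp [m0, h i i1 i2, Finsupp.single_apply, Ne.symm i1, Ne.symm i2]
      rw [if_pos this, c, c']
      decide +kernel
    · have : m ≠ m0 := fun e => c (by simp [e, m0])
      rw [if_neg this]
      have e0 := eps_pow (m 2)
      rw [if_neg c] at e0
      generalize mk 0 2 ^ m 2 = z at e0
      rcases neg_one_pow_eq_or D (m 1) with e | e <;> simp [e, e0]
  · push Not at h
    obtain ⟨i, i1, i2, i3⟩ := h
    have : m ≠ m0 := fun e => i3 (by simp [e, m0, Finsupp.single_apply, Ne.symm i1, Ne.symm i2])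
    rw [if_neg this, prod_eq_zero (mem_univ i)]
    · simp
    · have : ev i = 0 := by
        unfold ev
        rw [if_neg (show ¬ i.val = 1 from fun e => i1 (Fin.ext e)),
          if_neg (show ¬ i.val = 2 from fun e => i2 (Fin.ext e))]
      rw [this, zero_pow i3]

lemma gen {R : Type} [CommRing R] (ev : Fin 31 → R) (m : Fin 31 →₀ ℕ) :
    ∏ i : Fin 31, (Polynomial.C (ev i) * Polynomial.X ^ (i.val + 1) : Polynomial R) ^ m i =
        Polynomial.C (∏ i, ev i ^ m i) * Polynomial.X ^ (∑ i : Fin 31, (i.val + 1) * m i) := by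
  rw [map_prod, ← Finset.prod_pow_eq_pow_sum, ← prod_mul_distrib]
  refine prod_congr rfl (fun i _ => ?_)
  rw [mul_pow, map_pow, pow_mul]

open MvPolynomial in
lemma coeff_val (q : MvPolynomial (Fin 31) ℚ) :
    ((aeval (fun i : Fin 31 => Polynomial.C (ev i) * Polynomial.X ^ (i.val + 1)) q :
      Polynomial D).coeff 31).snd = 2 * coeff m0 q := by
  induction q using MvPolynomial.induction_on' with
  | monomial m a =>
    rw [aeval_monomial, Finsupp.prod_fintype _ _ (by simp)]
    have : ∏ i : Fin 31, (Polynomial.C (ev i) * Polynomial.X ^ (i.val + 1) : Polynomial D) ^ m i =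
        Polynomial.C (∏ i, ev i ^ m i) * Polynomial.X ^ (∑ i : Fin 31, (i.val + 1) * m i) := by
      exact gen ev m
    rw [this]
    rw [← Algebra.smul_def, Polynomial.coeff_smul, Polynomial.coeff_C_mul_X_pow, coeff_monomial]
    by_cases h : 31 = ∑ i : Fin 31, (i.val + 1) * m i
    · rw [if_pos h, TrivSqZeroExt.snd_smul, mono_val m h.symm]
      split_ifs <;> simp [mul_comm]
    · rw [if_neg h, if_neg]
      · simp
      · rintro rfl
        apply h
        rw [Finset.sum_eq_add (1 : Fin 31) 2 (by decide)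
          (fun c _ hc => by simp [m0, Finsupp.single_apply, Ne.symm hc.1, Ne.symm hc.2])
          (by simp) (by simp)]
        simp [m0]
  | add p q hp hq => simp only [map_add, Polynomial.coeff_add, TrivSqZeroExt.snd_add, hp, hq,
      coeff_add, mul_add]

open MvPolynomial in
lemma esymm_u (i : Fin 31) :
    aeval (fun c : Fin 31 => Polynomial.C (yy c) * Polynomial.X) (esymm (Fin 31) ℚ (i.val + 1)) =
      (Polynomial.C (ev i) * Polynomial.X ^ (i.val + 1) : Polynomial D) := by
  have h := esymm_y (i.val + 1) (by omega) (by omega)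
  have : ev i = aeval (fun c : Fin 31 => yy c) (esymm (Fin 31) ℚ (i.val + 1)) := by
    rw [h]; unfold ev; simp
  rw [this]
  simp only [esymm, map_sum, map_prod, aeval_X, sum_mul]
  refine sum_congr rfl (fun t ht => ?_)
  rw [prod_mul_distrib, prod_const, (mem_powersetCard.1 ht).2]

end Pool.Agent.H.MP_fedadc_co
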