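import Mathlib
import Pool.Agent.H.MP_fedadc_co.Cpet

namespace Pool.Agent.H.MP_fedadc_co

open MvPolynomial

theorem term_val {R : Type} [CommRing R] (y : ℕ → R) (hy : ∀ c, 3 ≤ c → y c = 0)
    (κ : Fin 31 → Fin 31) [Decidable (∀ a b, G.Adj a b → κ a ≠ κ b)] :
    (∏ v : Fin 31, (if (0 < v.val ∧ ext κ (par v) = (κ v).val) ∨ 3 ≤ (κ v).val then 0
      else y (κ v))) = if (∀ a b, G.Adj a b → κ a ≠ κ b) then ∏ v, y (κ v) else 0 := by
  have hp : ∀ v : Fin 31, 0 < v.val → par v < 31 := fun v h => lt_trans (par_lt v h) v.2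
  by_cases h : ∀ a b, G.Adj a b → κ a ≠ κ b
  · rw [if_pos h]
    refine Finset.prod_congr rfl (fun v _ => ?_)
    split_ifs with c
    · rcases c with ⟨c1, c2⟩ | c
      · exfalso
        have := par_lt v c1
        refine h ⟨par v, hp v c1⟩ v ⟨fun e => ?_, Or.inl rfl⟩ (Fin.ext ?_)
        · have := congrArg Fin.val e; simp at this; omega
        · simpa [ext, hp v c1] using c2
      · exact (hy _ c).symm
    · rfl
  · rw [if_neg h]
    push Not at h
    obtain ⟨a, b, ⟨h1, h2⟩, h3⟩ := h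
    have key : ∀ a b : Fin 31, a ≠ b → a.val = par b → κ a = κ b →
        (0 < b.val ∧ ext κ (par b) = (κ b).val) := by
      intro a b h1 h2 h3
      refine ⟨?_, ?_⟩
      · by_contra c
        have c' : b.val = 0 := by omega
        apply h1; apply Fin.ext; rw [h2, c']; rfl
      · rw [← h2, ← h3]; simp [ext]
    rcases h2 with h2 | h2
    · exact Finset.prod_eq_zero (Finset.mem_univ b) (if_pos (Or.inl (key a b h1 h2 h3)))
    · exact Finset.prod_eq_zero (Finset.mem_univ a) (if_pos (Or.inl (key b a h1.symm h2 h3.symm)))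

theorem aeval_sum {R : Type} [CommRing R] [Algebra ℚ R] {n : ℕ} (y : Fin n → R)
    (s : Finset (Fin n → Fin n)) :
    aeval (fun c : Fin n => Polynomial.C (y c) * Polynomial.X)
      (∑ κ ∈ s, ∏ v, X (κ v) : MvPolynomial (Fin n) ℚ) =
    (Polynomial.C (∑ κ ∈ s, ∏ v, y (κ v)) * Polynomial.X ^ n : Polynomial R) := by
  rw [map_sum, map_sum, Finset.sum_mul]
  refine Finset.sum_congr rfl (fun κ _ => ?_)
  rw [map_prod, map_prod]
  simp only [aeval_X]
  rw [Finset.prod_mul_distrib, Finset.prod_const, Finset.card_univ, Fintype.card_fin]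

theorem sum_val {R : Type} [CommRing R] (y : ℕ → R) (hy : ∀ c, 3 ≤ c → y c = 0)
    [DecidablePred (fun κ : Fin 31 → Fin 31 => ∀ a b, G.Adj a b → κ a ≠ κ b)] :
    ∑ κ ∈ Finset.univ.filter (fun κ : Fin 31 → Fin 31 => ∀ a b, G.Adj a b → κ a ≠ κ b),
      ∏ v, y (κ v) = F 30 (fun _ c => y c) := by
  rw [← W_eq, Finset.sum_filter]
  exact Finset.sum_congr rfl (fun κ _ => (term_val y hy κ).symm)

theorem aeval_aeval {R : Type} [CommRing R] [Algebra ℚ R] {n : ℕ} (x : Fin n → R)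
    (e : Fin n → MvPolynomial (Fin n) ℚ) (q : MvPolynomial (Fin n) ℚ) :
    aeval x (aeval e q) = aeval (fun i => aeval x (e i)) q := by
  rw [← AlgHom.comp_apply, comp_aeval]

theorem coeff_seven [DecidablePred (fun κ : Fin 31 → Fin 31 => ∀ a b, G.Adj a b → κ a ≠ κ b)]
    (q : MvPolynomial (Fin 31) ℚ)
    (hq : aeval (fun i : Fin 31 => esymm (Fin 31) ℚ (i.val + 1)) q =
      ∑ κ ∈ Finset.univ.filter (fun κ : Fin 31 → Fin 31 => ∀ a b, G.Adj a b → κ a ≠ κ b),
        ∏ v, X (κ v)) : coeff m0 q = 7 := by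
  have h1 := coeff_val q
  have h2 := aeval_sum (fun c : Fin 31 => yy c)
    (Finset.univ.filter (fun κ : Fin 31 → Fin 31 => ∀ a b, G.Adj a b → κ a ≠ κ b))
  have h3 := sum_val yy (fun c hc => by
    unfold yy; rw [if_neg (by omega), if_neg (by omega), if_neg (by omega)])
  have h4 := aeval_aeval (fun c : Fin 31 => (Polynomial.C (yy c) * Polynomial.X : Polynomial D))
    (fun i : Fin 31 => esymm (Fin 31) ℚ (i.val + 1)) q
  have h5 : (fun i : Fin 31 => aeval (fun c : Fin 31 => (Polynomial.C (yy c) * Polynomial.X :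
      Polynomial D)) (esymm (Fin 31) ℚ (i.val + 1))) =
      fun i : Fin 31 => Polynomial.C (ev i) * Polynomial.X ^ (i.val + 1) := funext esymm_u
  have h6 := F_val
  generalize F 30 (fun _ c => yy c) = z at h3 h6
  rw [h3] at h2
  rw [hq, h2, h5] at h4
  rw [← h4, Polynomial.coeff_C_mul_X_pow, if_pos rfl, h6] at h1
  linarith

theorem exu {n : ℕ} (p : MvPolynomial (Fin n) ℚ) (hp : p.IsSymmetric) :
    ∃! q : MvPolynomial (Fin n) ℚ, aeval (fun i : Fin n => esymm (Fin n) ℚ (i.val + 1)) q = p := by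
  have hb := esymmAlgHom_fin_bijective ℚ n
  have hv : ∀ q : MvPolynomial (Fin n) ℚ, (esymmAlgHom (Fin n) ℚ n q).val =
      aeval (fun i : Fin n => esymm (Fin n) ℚ (i.val + 1)) q := fun q => esymmAlgHom_apply q
  obtain ⟨q, hq⟩ := hb.2 ⟨p, hp⟩
  refine ⟨q, ?_, fun q' hq' => hb.1 (Subtype.ext ?_)⟩
  · show aeval _ q = p
    rw [← hv, hq]
  · rw [hq, hv]; exact hq'

end Pool.Agent.H.MP_fedadc_co
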